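import Pool.Agent.H56.RM.Cells

/-! The lines of the family. -/

namespace Pool.Agent.H56.RM.D3

/-- the lines -/
def famC : List (ℤ × ℤ) := [
  (701, 7265360),
  (1167, 6755000),
  (1944, 6244951),
  (3236, 5735418),
  (5387, 5226743),
  (8961, 4719492),
  (14890, 4214595),
  (28910, 3279928),
  (34932, 3057377),
  (49754, 2705935),
  (67304, 2414333),
  (86256, 2180308),
  (107564, 1976371),
  (132282, 1787104),
  (154866, 1645306),
  (179716, 1514823),
  (202885, 1411426),
  (241585, 1262640),
  (278630, 1138538),
  (319999, 1016594),
  (364693, 899677),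
  (384130, 854218),
  (395596, 830086),
  (415269, 792605),
  (434944, 758496),
  (458769, 720734),
  (477890, 692909),
  (495083, 669849),
  (520584, 638213),
  (545791, 609194),
  (566811, 586671)]

end Pool.Agent.H56.RM.D3
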