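import Pool.Agent.H56.RM.D3.C

/-! Lines 0 to 20. -/

namespace Pool.Agent.H56.RM.D3

open Pool.Agent.H56.RM Pool.Agent.H98.RM Pool.Agent.H34.RM

/-- line 0 -/
def l0 : Ln3 := ⟨701, 7265360, true, 0, 0, [], none, none⟩

/-- witnesses -/
def w0 : List Wt := []

theorem c0 : lineChk3 famC l0 = true := by decide +kernel

theorem k0 : cellsChk l0.cs w0 = true := by decide +kernel

theorem p0 (hT : T3P Cert3P) : LineP famC 701 7265360 :=
  lineP_of_check c0 (cellsOK hT k0)

/-- line 1 -/
def l1 : Ln3 := ⟨1167, 6755000, true, 0, 0, [], none, none⟩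

/-- witnesses -/
def w1 : List Wt := []

theorem c1 : lineChk3 famC l1 = true := by decide +kernel

theorem k1 : cellsChk l1.cs w1 = true := by decide +kernel

theorem p1 (hT : T3P Cert3P) : LineP famC 1167 6755000 :=
  lineP_of_check c1 (cellsOK hT k1)

/-- line 2 -/
def l2 : Ln3 := ⟨1944, 6244951, true, 0, 0, [], none, none⟩

/-- witnesses -/
def w2 : List Wt := []

theorem c2 : lineChk3 famC l2 = true := by decide +kernel

theorem k2 : cellsChk l2.cs w2 = true := by decide +kernel

theorem p2 (hT : T3P Cert3P) : LineP famC 1944 6244951 :=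
  lineP_of_check c2 (cellsOK hT k2)

/-- line 3 -/
def l3 : Ln3 := ⟨3236, 5735418, true, 0, 0, [], none, none⟩

/-- witnesses -/
def w3 : List Wt := []

theorem c3 : lineChk3 famC l3 = true := by decide +kernel

theorem k3 : cellsChk l3.cs w3 = true := by decide +kernel

theorem p3 (hT : T3P Cert3P) : LineP famC 3236 5735418 :=
  lineP_of_check c3 (cellsOK hT k3)

/-- line 4 -/
def l4 : Ln3 := ⟨5387, 5226743, true, 0, 0, [], none, none⟩

/-- witnesses -/
def w4 : List Wt := []

theorem c4 : lineChk3 famC l4 = true := by decide +kernel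

theorem k4 : cellsChk l4.cs w4 = true := by decide +kernel

theorem p4 (hT : T3P Cert3P) : LineP famC 5387 5226743 :=
  lineP_of_check c4 (cellsOK hT k4)

/-- line 5 -/
def l5 : Ln3 := ⟨8961, 4719492, true, 0, 0, [], none, none⟩

/-- witnesses -/
def w5 : List Wt := []

theorem c5 : lineChk3 famC l5 = true := by decide +kernel

theorem k5 : cellsChk l5.cs w5 = true := by decide +kernel

theorem p5 (hT : T3P Cert3P) : LineP famC 8961 4719492 :=
  lineP_of_check c5 (cellsOK hT k5)

/-- line 6 -/
def l6 : Ln3 := ⟨14890, 4214595, true, 0, 0, [], none, none⟩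

/-- witnesses -/
def w6 : List Wt := []

theorem c6 : lineChk3 famC l6 = true := by decide +kernel

theorem k6 : cellsChk l6.cs w6 = true := by decide +kernel

theorem p6 (hT : T3P Cert3P) : LineP famC 14890 4214595 :=
  lineP_of_check c6 (cellsOK hT k6)

/-- line 7 -/
def l7 : Ln3 := ⟨28910, 3279928, false, 962366, 37631, [], some ⟨1000000, 58283, 3957925, [⟨9, false, 514018⟩, ⟨10, false, 485982⟩], [⟨6, false, 33311⟩], ⟨399151358683000000, 1548966993000000, 83531881956000000, 2510626799240000000, 18373589715000000, 4006013715720000000⟩⟩, none⟩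

/-- witnesses -/
def w7 : List Wt := []

theorem c7 : lineChk3 famC l7 = true := by decide +kernel

theorem k7 : cellsChk l7.cs w7 = true := by decide +kernel

theorem p7 (hT : T3P Cert3P) : LineP famC 28910 3279928 :=
  lineP_of_check c7 (cellsOK hT k7)

/-- line 8 -/
def l8 : Ln3 := ⟨34932, 3057377, false, 952986, 47011, [], some ⟨1000000, 86257, 3325390, [⟨11, false, 999954⟩, ⟨12, false, 46⟩], [⟨7, false, 2722851⟩], ⟨384403487316000000, 3525965024000000, 100224507155000000, 2320257214574000000, 34575969089000000, 3381834545850000000⟩⟩, none⟩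

/-- witnesses -/
def w8 : List Wt := []

theorem c8 : lineChk3 famC l8 = true := by decide +kernel

theorem k8 : cellsChk l8.cs w8 = true := by decide +kernel

theorem p8 (hT : T3P Cert3P) : LineP famC 34932 3057377 :=
  lineP_of_check c8 (cellsOK hT k8)

/-- line 9 -/
def l9 : Ln3 := ⟨49754, 2705935, false, 933189, 66808, [], some ⟨1000000, 129884, 2884216, [⟨12, false, 97015⟩, ⟨13, false, 902985⟩], [⟨8, false, 2049657⟩], ⟨371273894140000000, 7204515018000000, 131013317824000000, 2051396248232000000, 53531958680000000, 2954123024181000000⟩⟩, none⟩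

/-- witnesses -/
def w9 : List Wt := []

theorem c9 : lineChk3 famC l9 = true := by decide +kernel

theorem k9 : cellsChk l9.cs w9 = true := by decide +kernel

theorem p9 (hT : T3P Cert3P) : LineP famC 49754 2705935 :=
  lineP_of_check c9 (cellsOK hT k9)

/-- line 10 -/
def l10 : Ln3 := ⟨67304, 2414333, false, 910570, 89427, [], some ⟨1000000, 178429, 2577152, [⟨14, false, 51791⟩, ⟨15, false, 948209⟩], [⟨9, false, 2497152⟩], ⟨360223999427000000, 12421086977000000, 165607966471000000, 1813899020317000000, 72323411088000000, 2662551167636000000⟩⟩, none⟩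

/-- witnesses -/
def w10 : List Wt := []

theorem c10 : lineChk3 famC l10 = true := by decide +kernel

theorem k10 : cellsChk l10.cs w10 = true := by decide +kernel

theorem p10 (hT : T3P Cert3P) : LineP famC 67304 2414333 :=
  lineP_of_check c10 (cellsOK hT k10)

/-- line 11 -/
def l11 : Ln3 := ⟨86256, 2180308, false, 886990, 113007, [], some ⟨1000000, 231651, 2327832, [⟨16, false, 256693⟩, ⟨17, false, 743307⟩], [⟨10, false, 3120675⟩], ⟨349752030752000000, 19185721099000000, 197870318377000000, 1633302520447000000, 92543708208000000, 2425989257053000000⟩⟩, none⟩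

/-- witnesses -/
def w11 : List Wt := []

theorem c11 : lineChk3 famC l11 = true := by decide +kernel

theorem k11 : cellsChk l11.cs w11 = true := by decide +kernel

theorem p11 (hT : T3P Cert3P) : LineP famC 86256 2180308 :=
  lineP_of_check c11 (cellsOK hT k11)

/-- line 12 -/
def l12 : Ln3 := ⟨107564, 1976371, false, 861425, 138572, [], some ⟨1000000, 290579, 2123349, [⟨18, false, 711161⟩, ⟨19, false, 288839⟩], [⟨11, false, 3541160⟩], ⟨339915424117000000, 27009979205000000, 222850086274000000, 1523776209739000000, 114401736534000000, 2224694625171000000⟩⟩, none⟩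

/-- witnesses -/
def w12 : List Wt := []

theorem c12 : lineChk3 famC l12 = true := by decide +kernel

theorem k12 : cellsChk l12.cs w12 = true := by decide +kernel

theorem p12 (hT : T3P Cert3P) : LineP famC 107564 1976371 :=
  lineP_of_check c12 (cellsOK hT k12)

/-- line 13 -/
def l13 : Ln3 := ⟨132282, 1787104, false, 832552, 167445, [], some ⟨1000000, 364693, 1906349, [⟨20, false, 1000000⟩], [⟨12, false, 4051017⟩], ⟨327962849610000000, 39958599357000000, 262934858952000000, 1344547430232000000, 141474804027000000, 2025537218893000000⟩⟩, none⟩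

/-- witnesses -/
def w13 : List Wt := []

theorem c13 : lineChk3 famC l13 = true := by decide +kernel

theorem k13 : cellsChk l13.cs w13 = true := by decide +kernel

theorem p13 (hT : T3P Cert3P) : LineP famC 132282 1787104 :=
  lineP_of_check c13 (cellsOK hT k13)

/-- line 14 -/
def l14 : Ln3 := ⟨154866, 1645306, false, 807043, 192954, [], some ⟨864277, 395597, 1561020, [⟨22, false, 999950⟩, ⟨23, false, 50⟩], [⟨13, false, 4732904⟩], ⟨321820379112000000, 45791019074000000, 269932931045000000, 1226514062118000000, 156694731621000000, 1930780274417000000⟩⟩, none⟩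

/-- witnesses -/
def w14 : List Wt := []

theorem c14 : lineChk3 famC l14 = true := by decide +kernel

theorem k14 : cellsChk l14.cs w14 = true := by decide +kernel

theorem p14 (hT : T3P Cert3P) : LineP famC 154866 1645306 :=
  lineP_of_check c14 (cellsOK hT k14)

/-- line 15 -/
def l15 : Ln3 := ⟨179716, 1514823, false, 780149, 219848, [], some ⟨748858, 434945, 1256021, [⟨24, false, 999959⟩, ⟨25, false, 41⟩], [⟨14, false, 4855182⟩], ⟨313241098341000000, 55454959456000000, 289557930363000000, 1044382967153000000, 175226396251000000, 1828010628192000000⟩⟩, none⟩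

/-- witnesses -/
def w15 : List Wt := []

theorem c15 : lineChk3 famC l15 = true := by decide +kernel

theorem k15 : cellsChk l15.cs w15 = true := by decide +kernel

theorem p15 (hT : T3P Cert3P) : LineP famC 179716 1514823 :=
  lineP_of_check c15 (cellsOK hT k15)

/-- line 16 -/
def l16 : Ln3 := ⟨202885, 1411426, false, 756201, 243796, [], some ⟨607505, 458770, 954063, [⟨25, false, 999948⟩, ⟨26, false, 52⟩], [⟨15, false, 5724692⟩], ⟨305482374127000000, 61472253399000000, 287141192760000000, 914897432694000000, 193989648605000000, 1735377795458000000⟩⟩, none⟩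

/-- witnesses -/
def w16 : List Wt := []

theorem c16 : lineChk3 famC l16 = true := by decide +kernel

theorem k16 : cellsChk l16.cs w16 = true := by decide +kernel

theorem p16 (hT : T3P Cert3P) : LineP famC 202885 1411426 :=
  lineP_of_check c16 (cellsOK hT k16)

/-- line 17 -/
def l17 : Ln3 := ⟨241585, 1262640, false, 742859, 282907, [⟨717090, 281893, 419948, 1519233, 480767, 752146, 1300925, [⟨26, false, 17⟩, ⟨27, false, 999983⟩], [⟨9, false, 999996⟩, ⟨8, false, 4⟩], [⟨16, false, 4946950⟩]⟩,
    ⟨718103, 279214, 383586, 1557212, 442788, 744176, 1198157, [⟨25, false, 2⟩, ⟨26, false, 999998⟩], [⟨9, false, 999991⟩, ⟨8, false, 9⟩], [⟨16, false, 4919169⟩]⟩,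
    ⟨720782, 273000, 384330, 1557920, 442080, 744514, 1196243, [⟨25, false, 14⟩, ⟨26, false, 999986⟩], [⟨9, false, 999980⟩, ⟨8, false, 20⟩], [⟨16, false, 4922347⟩]⟩,
    ⟨726996, 257137, 383503, 1649476, 350524, 756728, 1071687, [⟨24, false, 12⟩, ⟨25, false, 999988⟩], [⟨8, false, 999962⟩, ⟨7, false, 38⟩], [⟨16, false, 4991160⟩]⟩], some ⟨513317, 477890, 764353, [⟨26, false, 1000000⟩], [⟨16, false, 2901793⟩], ⟨299119882286000000, 64974107699000000, 257080010763000000, 960813218464000000, 225332238811000000, 1600730753735000000⟩⟩, none⟩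

/-- witnesses -/
def w17 : List Wt := [⟨-332554, -1266228, 702592, 146531, -382165, -1521786, 1203071, 1449610⟩,
    ⟨-331143, -1275777, 709313, 145851, -386064, -1509688, 1344314, 1472679⟩,
    ⟨-327419, -1298284, 725228, 144060, -395928, -1479947, 1327226, 1493367⟩,
    ⟨-318835, -1358147, 768065, 139944, -420855, -1409688, 1371334, 1241355⟩]

theorem c17 : lineChk3 famC l17 = true := by decide +kernel

theorem k17 : cellsChk l17.cs w17 = true := by decide +kernel

theorem p17 (hT : T3P Cert3P) : LineP famC 241585 1262640 :=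
  lineP_of_check c17 (cellsOK hT k17)

/-- line 18 -/
def l18 : Ln3 := ⟨278630, 1138538, false, 714062, 320287, [⟨679710, 318915, 514216, 1328095, 671905, 809068, 1622202, [⟨29, true, 999988⟩, ⟨28, true, 12⟩], [⟨11, false, 3⟩, ⟨10, false, 999997⟩], [⟨17, false, 4150573⟩]⟩,
    ⟨681081, 316510, 514521, 1328515, 671485, 809323, 1621191, [⟨30, true, 13⟩, ⟨29, true, 999987⟩], [⟨10, false, 999987⟩, ⟨9, false, 13⟩], [⟨17, false, 4154394⟩]⟩,
    ⟨683486, 312073, 477843, 1373332, 626668, 805694, 1512986, [⟨30, false, 3⟩, ⟨30, true, 999997⟩], [⟨10, false, 999996⟩, ⟨9, false, 4⟩], [⟨17, false, 4250881⟩]⟩,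
    ⟨687923, 303769, 444864, 1414686, 585314, 801860, 1413143, [⟨30, false, 999986⟩, ⟨30, true, 14⟩], [⟨10, false, 1000000⟩], [⟨17, false, 4320302⟩]⟩,
    ⟨696227, 285934, 405497, 1567951, 432049, 816250, 1169097, [⟨27, false, 6⟩, ⟨28, false, 999994⟩], [⟨9, false, 999997⟩, ⟨8, false, 3⟩], [⟨17, false, 4521705⟩]⟩], some ⟨388283, 495083, 543126, [⟨27, false, 1000000⟩], [⟨17, false, 2922655⟩], ⟨291561494467000000, 69227965662000000, 268495343485000000, 707605263658000000, 229393377148000000, 1584822039195000000⟩⟩, none⟩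

/-- witnesses -/
def w18 : List Wt := [⟨-386090, -1142831, 617482, 172681, -371865, -1554676, 997177, 1493291⟩,
    ⟨-384075, -1150401, 622609, 171684, -375333, -1543439, 991698, 1501352⟩,
    ⟨-380550, -1164519, 632203, 169942, -382025, -1522218, 1093710, 1527211⟩,
    ⟨-374079, -1191488, 650652, 166752, -395200, -1482100, 1189587, 1567658⟩,
    ⟨-362080, -1251995, 692610, 160865, -424291, -1400507, 1400069, 1333976⟩]

theorem c18 : lineChk3 famC l18 = true := by decide +kernel

theorem k18 : cellsChk l18.cs w18 = true := by decide +kernel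

theorem p18 (hT : T3P Cert3P) : LineP famC 278630 1138538 :=
  lineP_of_check c18 (cellsOK hT k18)

/-- line 19 -/
def l19 : Ln3 := ⟨319999, 1016594, false, 700920, 361826, [⟨638171, 360845, 571874, 988539, 1011461, 783521, 1999023, [⟨23, true, 999999⟩, ⟨22, true, 1⟩], [⟨12, false, 999997⟩, ⟨11, false, 3⟩], [⟨18, false, 1675764⟩]⟩,
    ⟨639151, 359670, 571988, 988757, 1011243, 783694, 1998590, [⟨23, true, 999994⟩, ⟨22, true, 6⟩], [⟨13, false, 7⟩, ⟨12, false, 999993⟩], [⟨18, false, 1678503⟩]⟩,
    ⟨640326, 358280, 572123, 988979, 1011021, 783869, 1998157, [⟨24, true, 21⟩, ⟨23, true, 999979⟩], [⟨12, false, 999979⟩, ⟨11, false, 21⟩], [⟨18, false, 1681097⟩]⟩,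
    ⟨641716, 356422, 617703, 1100854, 899146, 834994, 1960414, [⟨24, true, 999983⟩, ⟨23, true, 17⟩], [⟨12, false, 7⟩, ⟨11, false, 999993⟩], [⟨18, false, 1810355⟩]⟩,
    ⟨643574, 353840, 618050, 1101529, 898471, 835506, 1958943, [⟨24, true, 999983⟩, ⟨23, true, 17⟩], [⟨12, false, 3⟩, ⟨11, false, 999997⟩], [⟨18, false, 1818638⟩]⟩,
    ⟨646156, 350282, 573714, 1161575, 838425, 837187, 1828026, [⟨25, true, 999991⟩, ⟨24, true, 9⟩], [⟨11, false, 999994⟩, ⟨10, false, 6⟩], [⟨18, false, 2077020⟩]⟩,
    ⟨649714, 345063, 574392, 1162788, 837212, 838061, 1825380, [⟨25, true, 999997⟩, ⟨24, true, 3⟩], [⟨12, false, 1⟩, ⟨11, false, 999999⟩], [⟨18, false, 2090376⟩]⟩,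
    ⟨654933, 337207, 540014, 1211072, 788928, 839162, 1720107, [⟨27, true, 25⟩, ⟨26, true, 999975⟩], [⟨11, false, 999995⟩, ⟨10, false, 5⟩], [⟨18, false, 2282236⟩]⟩,
    ⟨662789, 324528, 466083, 1311995, 688005, 837332, 1500065, [⟨29, true, 7⟩, ⟨28, true, 999993⟩], [⟨11, false, 999987⟩, ⟨10, false, 13⟩], [⟨18, false, 2599443⟩]⟩,
    ⟨675468, 299076, 397866, 1512887, 487113, 857521, 1176054, [⟨30, false, 1000000⟩], [⟨10, false, 999993⟩, ⟨9, false, 7⟩], [⟨18, false, 2973118⟩]⟩], some ⟨349885, 520584, 462309, [⟨28, false, 1000000⟩], [⟨18, false, 2142334⟩], ⟨284605032788000000, 75913530364000000, 261062113143000000, 683827786882000000, 255252292880000000, 1490415719103000000⟩⟩, none⟩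

/-- witnesses -/
def w19 : List Wt := [⟨-449150, -1019307, 535622, 204403, -356131, -1607815, 776399, 1802826⟩,
    ⟨-447615, -1022569, 537739, 203619, -357896, -1601675, 773762, 1807846⟩,
    ⟨-445778, -1026441, 540256, 202682, -359981, -1594475, 770578, 1813865⟩,
    ⟨-443610, -1031640, 543641, 201576, -362544, -1585719, 790591, 1501685⟩,
    ⟨-440719, -1038911, 548385, 200104, -366138, -1573599, 785479, 1510285⟩,
    ⟨-436715, -1049017, 554998, 198069, -371166, -1556964, 884199, 1533033⟩,
    ⟨-431224, -1064029, 564865, 195284, -378872, -1532143, 872962, 1550889⟩,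
    ⟨-423223, -1087059, 580099, 191240, -391130, -1494269, 949149, 1588128⟩,
    ⟨-411299, -1125384, 605714, 185243, -412604, -1432211, 1157782, 1661228⟩,
    ⟨-392350, -1207058, 661375, 175786, -457212, -1318040, 1491913, 1477819⟩]

theorem c19 : lineChk3 famC l19 = true := by decide +kernel

theorem k19 : cellsChk l19.cs w19 = true := by decide +kernel

theorem p19 (hT : T3P Cert3P) : LineP famC 319999 1016594 :=
  lineP_of_check c19 (cellsOK hT k19)

/-- line 20 -/
def l20 : Ln3 := ⟨364693, 899677, false, 694410, 406702, [⟨593295, 403351, 667094, 800716, 1199284, 814003, 2143246, [⟨20, true, 1⟩, ⟨19, true, 999999⟩], [⟨13, false, 999997⟩, ⟨12, false, 3⟩], []⟩,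
    ⟨596645, 400146, 667090, 800717, 1199283, 814004, 2143245, [⟨20, true, 2⟩, ⟨19, true, 999998⟩], [⟨13, false, 999994⟩, ⟨12, false, 6⟩], []⟩,
    ⟨599850, 397138, 652395, 814240, 1185760, 810436, 2119078, [⟨20, true, 181889⟩, ⟨19, true, 818111⟩], [⟨13, false, 999994⟩, ⟨12, false, 6⟩], []⟩,
    ⟨602858, 394154, 612902, 850620, 1149380, 800832, 2054061, [⟨20, true, 642554⟩, ⟨19, true, 357446⟩], [⟨14, false, 4⟩, ⟨13, false, 999996⟩], []⟩,
    ⟨605842, 390901, 579675, 881169, 1118831, 792768, 1999466, [⟨20, true, 999995⟩, ⟨19, true, 5⟩], [⟨14, false, 9⟩, ⟨13, false, 999991⟩], []⟩,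
    ⟨609095, 387330, 579677, 881169, 1118831, 792768, 1999467, [⟨20, true, 999995⟩, ⟨19, true, 5⟩], [⟨14, false, 3⟩, ⟨13, false, 999997⟩], []⟩,
    ⟨612666, 383052, 630071, 996459, 1003541, 851192, 1983369, [⟨22, true, 51⟩, ⟨21, true, 999949⟩], [⟨13, false, 2⟩, ⟨12, false, 999998⟩], []⟩,
    ⟨616944, 377431, 630039, 996460, 1003540, 851193, 1983369, [⟨22, true, 45⟩, ⟨21, true, 999955⟩], [⟨12, false, 999992⟩, ⟨11, false, 8⟩], []⟩,
    ⟨622565, 370077, 606071, 1019200, 980800, 846024, 1938425, [⟨22, true, 999986⟩, ⟨21, true, 14⟩], [⟨12, false, 999999⟩, ⟨11, false, 1⟩], [⟨19, false, 24857⟩]⟩,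
    ⟨629919, 359989, 534077, 1126928, 873072, 854770, 1725516, [⟨25, true, 9⟩, ⟨24, true, 999991⟩], [⟨12, false, 999990⟩, ⟨11, false, 10⟩], [⟨19, false, 548728⟩]⟩,
    ⟨640007, 346998, 518597, 1301771, 698229, 902010, 1522353, [⟨26, true, 999969⟩, ⟨25, true, 31⟩], [⟨12, false, 9⟩, ⟨11, false, 999991⟩], [⟨19, false, 978340⟩]⟩,
    ⟨652998, 324279, 437936, 1404567, 595433, 896413, 1298228, [⟨28, true, 999999⟩, ⟨27, true, 1⟩], [⟨11, false, 999996⟩, ⟨10, false, 4⟩], [⟨19, false, 1312894⟩]⟩,
    ⟨675717, 274299, 375610, 1727008, 272992, 942585, 834640, [⟨28, false, 10⟩, ⟨29, false, 999990⟩], [⟨8, false, 999992⟩, ⟨7, false, 8⟩], [⟨19, false, 1918756⟩]⟩], none, none⟩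

/-- witnesses -/
def w20 : List Wt := [⟨-522064, -907949, 464798, 242320, -385880, -1510262, 626636, 1632287⟩,
    ⟨-516433, -915926, 469776, 239344, -390286, -1496821, 619882, 1646637⟩,
    ⟨-511076, -923472, 474498, 236521, -389750, -1498442, 637863, 1678456⟩,
    ⟨-506074, -931014, 479231, 233891, -380469, -1527106, 702359, 1745938⟩,
    ⟨-501137, -939301, 484447, 231301, -372831, -1551532, 761783, 1812946⟩,
    ⟨-495782, -948479, 490242, 228499, -378013, -1534873, 753640, 1830654⟩,
    ⟨-489936, -959585, 497282, 225449, -378432, -1533541, 774836, 1528373⟩,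
    ⟨-482978, -974368, 506695, 221829, -385479, -1511494, 763871, 1551995⟩,
    ⟨-473908, -994045, 519304, 217129, -388649, -1501781, 796948, 1608656⟩,
    ⟨-462165, -1021682, 537163, 211073, -405026, -1453521, 975191, 1670175⟩,
    ⟨-446277, -1058437, 561183, 202936, -429025, -1388050, 1120235, 1425060⟩,
    ⟨-426182, -1126152, 606230, 192734, -471549, -1284926, 1366870, 1531156⟩,
    ⟨-391981, -1293537, 721863, 175603, -572649, -1088637, 1802280, 940139⟩]

theorem c20 : lineChk3 famC l20 = true := by decide +kernel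

theorem k20 : cellsChk l20.cs w20 = true := by decide +kernel

theorem p20 (hT : T3P Cert3P) : LineP famC 364693 899677 :=
  lineP_of_check c20 (cellsOK hT k20)

end Pool.Agent.H56.RM.D3
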