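import Pool.Agent.H56.RM.D3.G00
import Pool.Agent.H56.RM.D3.G01
import Pool.Agent.H56.RM.D3.G02
import Pool.Agent.H56.RM.D3.G03
import Pool.Agent.H56.RM.D3.G04

/-! The diagonal step of the family. -/

namespace Pool.Agent.H56.RM.D3

open Pool.Agent.H92 Pool.Agent.H56.RM Pool.Agent.H98.RM Pool.Agent.H34.RM

/-- cells of the diagonal step -/
def dcs : List Cell3 := [⟨499996, 498213, 608168, 1000580, 999420, 1263373, 1261908, [⟨17, true, 999996⟩, ⟨16, true, 4⟩], [⟨17, false, 999998⟩, ⟨16, false, 2⟩], []⟩,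
    ⟨501783, 496450, 608165, 1001759, 998241, 1264861, 1260419, [⟨17, true, 1000000⟩], [⟨18, false, 1⟩, ⟨17, false, 999999⟩], []⟩,
    ⟨503546, 494735, 608161, 1002963, 997037, 1266381, 1258899, [⟨18, true, 2⟩, ⟨17, true, 999998⟩], [⟨17, false, 999999⟩, ⟨16, false, 1⟩], []⟩,
    ⟨505261, 493093, 608165, 1004043, 995957, 1267745, 1257540, [⟨17, true, 1000000⟩], [⟨17, false, 999968⟩, ⟨16, false, 32⟩], []⟩,
    ⟨506903, 491280, 693078, 1110249, 889751, 1401844, 1255818, [⟨18, true, 6⟩, ⟨17, true, 999994⟩], [⟨16, false, 999997⟩, ⟨15, false, 3⟩], []⟩,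
    ⟨508716, 488980, 592090, 1210953, 789047, 1378716, 1113681, [⟨19, true, 1⟩, ⟨18, true, 999999⟩], [⟨17, false, 4⟩, ⟨16, false, 999996⟩], []⟩,
    ⟨511016, 485799, 591811, 1212584, 787416, 1380574, 1111379, [⟨18, true, 999994⟩, ⟨17, true, 6⟩], [⟨17, false, 4⟩, ⟨16, false, 999996⟩], []⟩,
    ⟨514197, 481521, 591428, 1214858, 785142, 1383162, 1108170, [⟨18, true, 1000000⟩], [⟨16, false, 999998⟩, ⟨15, false, 2⟩], []⟩,
    ⟨518475, 475778, 630646, 1278754, 721246, 1455910, 1092561, [⟨19, true, 1⟩, ⟨18, true, 999999⟩], [⟨15, false, 999990⟩, ⟨14, false, 10⟩], []⟩,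
    ⟨524218, 467204, 507952, 1386328, 613672, 1409332, 929605, [⟨20, true, 5⟩, ⟨19, true, 999995⟩], [⟨15, false, 999994⟩, ⟨14, false, 6⟩], []⟩,
    ⟨532792, 451648, 537559, 1452495, 547505, 1476597, 900814, [⟨20, true, 5⟩, ⟨19, true, 999995⟩], [⟨14, false, 999991⟩, ⟨13, false, 9⟩], []⟩,
    ⟨548348, 412531, 453332, 1699536, 300464, 1529033, 655104, [⟨21, true, 6⟩, ⟨20, true, 999994⟩], [⟨12, false, 2⟩, ⟨11, false, 999998⟩], []⟩]

/-- witnesses -/
def dws : List Wt := [⟨-693156, -696728, 338520, 336477, -800859, -794602, 1140406, 1144954⟩,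
    ⟨-689588, -700273, 340551, 334440, -807152, -788386, 1135878, 1149427⟩,
    ⟨-686081, -703734, 342535, 332441, -813410, -782283, 1131467, 1153723⟩,
    ⟨-682681, -707058, 344445, 330505, -819391, -776520, 1127065, 1157909⟩,
    ⟨-679436, -710742, 346564, 328661, -825297, -770894, 1088396, 912428⟩,
    ⟨-675866, -715434, 349269, 326634, -832251, -764351, 1382294, 953422⟩,
    ⟨-671355, -721961, 353039, 324078, -842115, -755222, 1375565, 960584⟩,
    ⟨-665149, -730806, 358165, 320570, -855791, -742847, 1366290, 970172⟩,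
    ⟨-656864, -742804, 365149, 315901, -874183, -726702, 1331916, 849517⟩,
    ⟨-645848, -760990, 375801, 309719, -900266, -704728, 1762681, 919375⟩,
    ⟨-629625, -794853, 395850, 300669, -946248, -668436, 1701260, 809560⟩,
    ⟨-600846, -885444, 450837, 284776, -1046166, -598886, 2252565, 586864⟩]

/-- two set step -/
def dtwo : T2 := ⟨181821, 792606, 139621, [⟨23, true, 999974⟩, ⟨22, true, 26⟩], [], ⟨217179148960000000, 164410264754000000, 235570636797000000, 391977354539000000, 529405987427000000, 889051881497000000⟩⟩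

theorem dk : cellsChk dcs dws = true := by decide +kernel

theorem dt : dtwoChk famC 1153500 587465 dtwo = true := by decide +kernel

theorem dc : chainChk dcs 500000 587465 = true := by decide +kernel

theorem dd : dcs.all (dcellChk famC 1153500) = true := by decide +kernel

theorem all_lines (hT : T3P Cert3P) : AllL famC famC :=
  ⟨p0 hT, p1 hT, p2 hT, p3 hT, p4 hT, p5 hT, p6 hT, p7 hT, p8 hT, p9 hT, p10 hT, p11 hT, p12 hT, p13 hT, p14 hT, p15 hT, p16 hT, p17 hT, p18 hT, p19 hT, p20 hT, p21 hT, p22 hT, p23 hT, p24 hT, p25 hT, p26 hT, p27 hT, p28 hT, p29 hT, p30 hT, trivial⟩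

theorem goodDiag (hT1 : T1P CertI) (hT : T3P Cert3P) (hD : DiagStep3 CertI) : GoodDiag (S6 1153500) :=
  goodDiag3 hT1 hD (allL_get (all_lines hT)) dt dc (List.all_eq_true.1 dd) (cellsOK hT dk)

end Pool.Agent.H56.RM.D3
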